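import Pool.Graph.R_pool_sql_team_seeded_35f281b4.K7.H33.BP.Main

/-! Exactness for small multiplicities on a polygon which fits into a box after a shear. -/

set_option autoImplicit false

namespace Pool.Agent.H879.Room

open Pool.Agent.TH2

open Finset Pool.Agent.TH176.Nag Pool.Agent.TH603.Sur Pool.Agent.TH2.NU
open Pool.Agent.Y205.MD Pool.Agent.Y205.FW Pool.Agent.Y205.AV Pool.Agent.K7.H33.BP

theorem IsPoly_all {α : Type} {P : α → ℤ × ℤ → Prop} (h : ∀ a, IsPoly (P a)) :
    IsPoly fun m => ∀ a, P a m := by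
  choose H hH using h
  refine ⟨⋃ a, H a, fun m => ?_⟩
  constructor
  · intro h1 x hx
    obtain ⟨a, ha⟩ := Set.mem_iUnion.1 hx
    exact (hH a m).1 (h1 a) x ha
  · intro h1 a
    exact (hH a m).2 fun x hx => h1 x (Set.mem_iUnion.2 ⟨a, hx⟩)

/-- exactness on a polygon which fits into a box of size `N` after the shear `(x, y - q x)` -/
theorem Ex_box {ι : Type} [Fintype ι] {w : ι → ℕ} {μ δ N : ℕ} {S : Finset (ℤ × ℤ)}
    {P : ℤ × ℤ → Prop} (q a b : ℤ) (hP : IsPoly P) (hS : ∀ m, m ∈ S ↔ P m)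
    (hN : ∀ m ∈ S, (a ≤ m.1 ∧ m.1 < a + N) ∧ (b ≤ m.2 - q * m.1 ∧ m.2 - q * m.1 < b + N))
    (hμ : ∀ i, w i ≤ μ) (hδ : 2 * S.card = 2 * cond w + δ ∨ 2 * S.card + δ = 2 * cond w)
    (h : 901120 * ((μ + 1) * N) + 3661120 * (μ + 1) ^ 2 ≤ ∑ i, w i + 2 * δ) : Ex S w := by
  classical
  -- the shear
  obtain ⟨φ, hφ⟩ : ∃ φ : ℤ × ℤ → ℤ × ℤ, ∀ m, φ m = (m.1 - a, m.2 - q * m.1 - b) :=
    ⟨_, fun _ => rfl⟩
  have hinj : Function.Injective φ := by
    rintro ⟨x, y⟩ ⟨x', y'⟩ h
    rw [hφ, hφ] at h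
    simp only [Prod.mk.injEq] at h
    obtain ⟨h1, h2⟩ := h
    have h3 : x = x' := by linarith
    subst h3
    ext
    · rfl
    · simp only; linarith
  obtain ⟨S', hS'⟩ : ∃ S', S' = S.image φ := ⟨_, rfl⟩
  have hcard : S'.card = S.card := by rw [hS', card_image_of_injective _ hinj]
  have hP' := hP.subst 1 0 q 1 a (b + q * a)
  have hmem : ∀ m, m ∈ S' ↔ P (1 * m.1 + 0 * m.2 + a, q * m.1 + 1 * m.2 + (b + q * a)) := by
    intro m
    rw [hS', mem_image]
    constructor
    · rintro ⟨p, hp, rfl⟩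
      have h1 := (hS p).1 hp
      rw [hφ]
      have e : ((1 * (p.1 - a) + 0 * (p.2 - q * p.1 - b) + a,
        q * (p.1 - a) + 1 * (p.2 - q * p.1 - b) + (b + q * a)) : ℤ × ℤ) = p := by
        ext
        · simp only; ring
        · simp only; ring
      simp only [e]
      exact h1
    · intro h1
      refine ⟨_, (hS _).2 h1, ?_⟩
      rw [hφ]
      ext
      · simp only; ring
      · simp only; ring
  have hbox : ∀ m ∈ S', (0 ≤ m.1 ∧ m.1 < N) ∧ (0 ≤ m.2 ∧ m.2 < N) := by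
    intro m hm
    rw [hS', mem_image] at hm
    obtain ⟨p, hp, rfl⟩ := hm
    have h1 := hN p hp
    rw [hφ]
    simp only
    omega
  have hAp := Ap_poly (B := 8 * (μ + 1)) (by omega) hP' hmem hbox
  -- the multiset of the multiplicities
  obtain ⟨W0, hW0⟩ : ∃ W0, W0 = (univ : Finset ι).val.map w := ⟨_, rfl⟩
  obtain ⟨W, hW⟩ : ∃ W, W = W0.filter fun v => v ≠ 0 := ⟨_, rfl⟩
  have hall : ∀ t : ℕ → ℕ, ∑ p, t (w p) = (W0.map t).sum := by
    intro t
    rw [hW0, Multiset.map_map]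
    rfl
  have hfil : ∀ t : ℕ → ℕ, t 0 = 0 → (W0.map t).sum = (W.map t).sum := by
    intro t ht
    rw [hW]
    clear hW hall hW0
    induction W0 using Multiset.induction_on with
    | empty => simp
    | cons a W0 ih =>
      by_cases ha : a = 0
      · subst ha
        rw [Multiset.filter_cons_of_neg _ (by simp), Multiset.map_cons, Multiset.sum_cons, ht,
          zero_add, ih]
      · rw [Multiset.filter_cons_of_pos _ (by simpa using ha), Multiset.map_cons,
          Multiset.sum_cons, Multiset.map_cons, Multiset.sum_cons, ih]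
  have hsum0 : ∑ i, w i = W.sum := by
    have h1 := hfil (fun x => x) rfl
    rw [Multiset.map_id', Multiset.map_id'] at h1
    rw [← h1, hW0]
    rfl
  have hcond : cond w = NU.condM W := by
    have h1 := hall fun x => (x + 1).choose 2
    have h2 := hfil (fun x => (x + 1).choose 2) (by norm_num)
    unfold Pool.Agent.TH603.Sur.cond Pool.Agent.TH2.NU.condM
    rw [h1, h2]
  have hWμ : ∀ v ∈ W, 1 ≤ v ∧ v ≤ μ := by
    intro v hv
    rw [hW, Multiset.mem_filter, hW0, Multiset.mem_map] at hv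
    obtain ⟨⟨i, hi, rfl⟩, h2⟩ := hv
    exact ⟨by omega, hμ i⟩
  have key := exM_S (M := W) (δ := δ) (fun m hm => ⟨(hbox m hm).1.1, (hbox m hm).2.1⟩) hAp hWμ
    (by rw [hcard, ← hcond]; exact hδ) (by
      rw [← hsum0]
      refine le_trans (le_of_eq ?_) h
      ring)
  unfold Ex
  have h1 : crk S w ≤ crk S' w := by
    refine crk_map 1 0 (-q) 1 (-a) (-b) (by norm_num) fun m hm => ?_
    have e : ((1 * m.1 + 0 * m.2 + -a, -q * m.1 + 1 * m.2 + -b) : ℤ × ℤ) = φ m := by
      rw [hφ]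
      ext
      · simp only; ring
      · simp only; ring
    rw [e, hS']
    exact mem_image_of_mem φ hm
  have h2 : crk S' w ≤ crkM S' W := by
    rw [← crkM_eq hall]
    have h3 := crkM_filter (S := S') (fun m hm => ⟨(hbox m hm).1.1, (hbox m hm).2.1⟩) 0 W0
    rw [zero_add, zero_add, ← hW] at h3
    exact h3
  rw [hcard] at key
  rw [hcond]
  exact h1.trans (h2.trans key)

end Pool.Agent.H879.Room
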