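import Pool.Agent.H879.Room.Region

/-! The numbers of the points of the strips. -/

set_option autoImplicit false

namespace Pool.Agent.H879.Room

open Finset Pool.Agent.TH176.Nag Pool.Agent.TH603.Sur Pool.Agent.H879.Nine
open Pool.Agent.K7.H33.BP (IsPoly)

/-- the right ends of the rows -/
def cy (d : ℕ) (q t : ℤ) (y : ℤ) : ℤ := -((-((q * t - 1) * d + 3 * y)) / (3 * q))

theorem cy_le {d : ℕ} {q t y x : ℤ} (hq : 0 < q) :
    cy d q t y ≤ x ↔ (q * t - 1) * d + 3 * y ≤ 3 * q * x := by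
  unfold cy
  have h1 : -x ≤ (-((q * t - 1) * d + 3 * y)) / (3 * q) ↔
      -x * (3 * q) ≤ -((q * t - 1) * d + 3 * y) := Int.le_ediv_iff_mul_le (by linarith)
  constructor
  · intro h
    have := h1.1 (by linarith)
    linarith
  · intro h
    have := h1.2 (by linarith)
    linarith

variable {ι : Type} {d : ℕ} {m : ι → ℕ} {A : Finset ι}

/-- the points of the open rows -/
noncomputable def F0 (d : ℕ) (q t : ℤ) (m : ι → ℕ) (A : Finset ι) : Finset (ℤ × ℤ) :=
  (range ((d + 2) / 3)).biUnion fun y : ℕ =>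
    (Finset.Ico (cy d q t y - Wz d m A y) (cy d q t y)).image fun x => ((x, (y : ℤ)) : ℤ × ℤ)

theorem mem_F0 {q t : ℤ} (hq : 0 < q) (p : ℤ × ℤ) :
    p ∈ F0 d q t m A ↔ Rg d q t m A p ∧ 3 * p.2 < d := by
  obtain ⟨x, y⟩ := p
  unfold F0
  rw [mem_biUnion]
  have key : ∀ y : ℤ, (0 ≤ vv d q t (x, y) + 3 * q * Wz d m A y ∧ vv d q t (x, y) < 0) ↔
      (cy d q t y - Wz d m A y ≤ x ∧ x < cy d q t y) := by
    intro y
    have h1 := cy_le (d := d) (t := t) (y := y) (x := x + Wz d m A y) hq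
    have h2 := cy_le (d := d) (t := t) (y := y) (x := x) hq
    unfold vv
    simp only
    constructor
    · rintro ⟨h3, h4⟩
      constructor
      · have := h1.2 (by linarith)
        linarith
      · by_contra hc
        push Not at hc
        have := h2.1 hc
        linarith
    · rintro ⟨h3, h4⟩
      constructor
      · have := h1.1 (by linarith)
        linarith
      · by_contra hc
        push Not at hc
        have := h2.2 (by linarith)
        linarith
  constructor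
  · rintro ⟨n, hn, h⟩
    rw [mem_range] at hn
    rw [mem_image] at h
    obtain ⟨x', hx', he⟩ := h
    rw [Prod.mk.injEq] at he
    obtain ⟨rfl, rfl⟩ := he
    rw [Finset.mem_Ico] at hx'
    have h3 : 3 * (n : ℤ) < d := by omega
    exact ⟨(Rg_iff h3 (by positivity)).2 ((key n).2 hx'), h3⟩
  · rintro ⟨h1, h3⟩
    simp only at h3
    have h0 : 0 ≤ y := h1.1.1
    obtain ⟨n, rfl⟩ := Int.eq_ofNat_of_zero_le h0
    refine ⟨n, ?_, ?_⟩
    · rw [mem_range]
      have : 3 * n < d := by exact_mod_cast h3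
      omega
    · rw [mem_image]
      refine ⟨x, ?_, rfl⟩
      rw [Finset.mem_Ico]
      exact (key n).1 ((Rg_iff h3 h0).1 h1)

theorem card_F0 (q t : ℤ) : (F0 d q t m A).card =
    ∑ y ∈ range ((d + 2) / 3), (Wz d m A (y : ℤ)).toNat := by
  unfold F0
  rw [card_biUnion]
  · refine sum_congr rfl fun y _ => ?_
    rw [card_image_of_injective _ (fun a b h => (Prod.mk.inj h).1), Int.card_Ico]
    congr 1
    ring
  · intro a _ b _ hne
    rw [Function.onFun, disjoint_left]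
    intro p hp hp'
    rw [mem_image] at hp hp'
    obtain ⟨x, _, rfl⟩ := hp
    obtain ⟨x', _, h⟩ := hp'
    have := (Prod.mk.inj h).2
    exact hne (by exact_mod_cast this.symm)

theorem card_F0' (q t : ℤ) (hA : ∀ i ∈ A, 3 * m i ≤ d) (hW : 0 ≤ Wz d m A 0) :
    ((F0 d q t m A).card : ℤ) = ∑ y ∈ range ((d + 2) / 3), Wz d m A (y : ℤ) := by
  rw [card_F0]
  push_cast
  refine sum_congr rfl fun y hy => ?_
  rw [mem_range] at hy
  have h1 : (0 : ℤ) ≤ (y : ℤ) := by positivity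
  have h2 : 3 * (y : ℤ) ≤ d := by omega
  exact Int.toNat_of_nonneg (Wz_nonneg hA hW h1 h2)

theorem sum_max_range (m : ℕ) : ∀ h : ℕ, m ≤ h →
    2 * ∑ y ∈ range h, max ((m : ℤ) - (y : ℕ)) 0 = m * (m + 1) := by
  intro h hm
  obtain ⟨k, rfl⟩ := Nat.exists_eq_add_of_le hm
  rw [sum_range_add]
  have h1 : ∑ x ∈ range k, max ((m : ℤ) - ((m + x : ℕ) : ℤ)) 0 = 0 := by
    refine sum_eq_zero fun x _ => max_eq_right ?_
    push_cast
    omega
  rw [h1, add_zero]
  clear h1 hm
  induction m with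
  | zero => simp
  | succ m ih =>
    have h2 : ∑ y ∈ range (m + 1), max (((m + 1 : ℕ) : ℤ) - (y : ℕ)) 0 =
        ∑ y ∈ range (m + 1), (max ((m : ℤ) - (y : ℕ)) 0 + 1) := by
      refine sum_congr rfl fun y hy => ?_
      rw [mem_range] at hy
      rw [max_eq_left (by push_cast; omega), max_eq_left (by omega)]
      push_cast
      ring
    rw [h2, sum_add_distrib, sum_range_succ, mul_add, mul_add, ih]
    simp
    ring

theorem sum_rows2 (d : ℕ) : 2 * ∑ y ∈ range ((d + 2) / 3), (3 * (d : ℤ) - 9 * (y : ℕ)) +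
    2 * (if 3 ∣ d then 1 else 0) = (d + 1) * (d + 2) := by
  have h1 : ∀ h : ℕ, 2 * ∑ y ∈ range h, (3 * (d : ℤ) - 9 * (y : ℕ)) =
      6 * d * h - 9 * h * (h - 1) := by
    intro h
    induction h with
    | zero => simp
    | succ h ih =>
      rw [sum_range_succ, mul_add, ih]
      push_cast
      ring
  rw [h1]
  have h2 := Nat.div_add_mod d 3
  have h3 := Nat.mod_lt d (show 0 < 3 by norm_num)
  obtain ⟨k, hk⟩ : ∃ k, k = d / 3 := ⟨_, rfl⟩
  rw [← hk] at h2
  rcases (by omega : d % 3 = 0 ∨ d % 3 = 1 ∨ d % 3 = 2) with h | h | h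
  · have e : (d + 2) / 3 = k := by omega
    have ed : (d : ℤ) = 3 * k := by omega
    rw [if_pos (Nat.dvd_of_mod_eq_zero h), e, ed]
    ring
  · have e : (d + 2) / 3 = k + 1 := by omega
    have ed : (d : ℤ) = 3 * k + 1 := by omega
    rw [if_neg (by omega), e, ed]
    push_cast
    ring
  · have e : (d + 2) / 3 = k + 1 := by omega
    have ed : (d : ℤ) = 3 * k + 2 := by omega
    rw [if_neg (by omega), e, ed]
    push_cast
    ring

/-- the number of the cells is the number of the expected parameters -/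
theorem sum_Wz (hA : ∀ i ∈ A, 3 * m i ≤ d) :
    2 * ∑ y ∈ range ((d + 2) / 3), Wz d m A (y : ℤ) + 2 * (if 3 ∣ d then 1 else 0) =
      (d + 1) * (d + 2) - ∑ i ∈ A, (m i : ℤ) * (m i + 1) := by
  have h1 := sum_rows2 d
  have h2 : ∑ y ∈ range ((d + 2) / 3), Wz d m A (y : ℤ) =
      ∑ y ∈ range ((d + 2) / 3), (3 * (d : ℤ) - 9 * (y : ℕ)) -
        ∑ i ∈ A, ∑ y ∈ range ((d + 2) / 3), max ((m i : ℤ) - (y : ℕ)) 0 := by
    rw [sum_comm, ← sum_sub_distrib]
    rfl
  have h3 : 2 * ∑ i ∈ A, ∑ y ∈ range ((d + 2) / 3), max ((m i : ℤ) - (y : ℕ)) 0 =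
      ∑ i ∈ A, (m i : ℤ) * (m i + 1) := by
    rw [mul_sum]
    refine sum_congr rfl fun i hi => ?_
    have := hA i hi
    exact sum_max_range (m i) _ (by omega)
  rw [h2, mul_sub, h3]
  linarith

/-- the points of the strip with the apex -/
noncomputable def F1 (d : ℕ) (q t : ℤ) (m : ι → ℕ) (A : Finset ι) : Finset (ℤ × ℤ) :=
  F0 d q t m A ∪ if 3 ∣ d then {(t * ((d / 3 : ℕ) : ℤ), ((d / 3 : ℕ) : ℤ))} else ∅

theorem mem_F1 {q t : ℤ} (hq : 0 < q) (hA : ∀ i ∈ A, 3 * m i ≤ d) (p : ℤ × ℤ) :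
    p ∈ F1 d q t m A ↔ Rg d q t m A p := by
  unfold F1
  rw [mem_union, mem_F0 hq]
  constructor
  · rintro (h | h)
    · exact h.1
    · split_ifs at h with h3
      · rw [mem_singleton] at h
        subst h
        rw [Rg_iff_apex hq hA (by simp only; omega)]
      · exact absurd h (notMem_empty _)
  · intro h
    have h1 := h.1.2
    rcases h1.lt_or_eq with h2 | h2
    · exact Or.inl ⟨h, h2⟩
    · right
      have h3 : 3 ∣ d := by omega
      rw [if_pos h3, mem_singleton]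
      rw [Rg_iff_apex hq hA h2] at h
      have e : p.2 = ((d / 3 : ℕ) : ℤ) := by omega
      ext
      · rw [h, e]
      · exact e

theorem card_F1 {q t : ℤ} (hq : 0 < q) :
    (F1 d q t m A).card = (F0 d q t m A).card + if 3 ∣ d then 1 else 0 := by
  unfold F1
  rw [card_union_of_disjoint]
  · split_ifs <;> simp
  · rw [disjoint_left]
    intro p hp hp'
    rw [mem_F0 hq] at hp
    split_ifs at hp' with h3
    · rw [mem_singleton] at hp'
      subst hp'
      have := hp.2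
      simp only at this
      omega
    · exact absurd hp' (notMem_empty _)

/-- concavity: the cells are at least a quarter of the box -/
theorem card_ge (q t : ℤ) (hA : ∀ i ∈ A, 3 * m i ≤ d) (hW : 0 ≤ Wz d m A 0) {P ω : ℕ}
    (hP : 3 * P < d) (hω : (ω : ℤ) = Wz d m A (P : ℤ)) :
    ω * ((d + 2) / 3) ≤ 4 * (F0 d q t m A).card := by
  obtain ⟨h, hh⟩ : ∃ h, h = (d + 2) / 3 := ⟨_, rfl⟩
  have hPh : P + 1 ≤ h := by omega
  have h3h : 3 * h ≤ d + 2 := by omega
  have h3h' : d ≤ 3 * h := by omega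
  obtain ⟨n, hn⟩ := Nat.exists_eq_add_of_le hPh
  have hωR : (ω : ℝ) ≤ Wr d m A (P : ℝ) := by
    have := Wr_cast (d := d) (m := m) (A := A) (P : ℤ)
    rw [Int.cast_natCast] at this
    rw [this, ← hω]
    push_cast
    exact le_rfl
  have hω0 : (0 : ℝ) ≤ ω := Nat.cast_nonneg ω
  have hW0 : (0 : ℝ) ≤ Wr d m A 0 := by
    have := Wr_cast (d := d) (m := m) (A := A) 0
    rw [Int.cast_zero] at this
    rw [this]
    exact_mod_cast hW
  -- the lower part
  have hlow : (ω : ℝ) * (P + 1) ≤ 2 * ∑ y ∈ range (P + 1), (Wz d m A (y : ℤ) : ℝ) := by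
    rcases Nat.eq_zero_or_pos P with h0 | h0
    · subst h0
      simp only [zero_add, sum_range_one]
      rw [← hω]
      push_cast
      linarith
    · have hPR : (0 : ℝ) < P := by exact_mod_cast h0
      have h1 : ∀ y ∈ range (P + 1), (ω : ℝ) * y ≤ (Wz d m A (y : ℤ) : ℝ) * P := by
        intro y hy
        rw [mem_range] at hy
        have hyP : (y : ℝ) ≤ P := by exact_mod_cast (by omega : y ≤ P)
        have h2 := Wr_between (d := d) (m := m) (A := A) (x := 0) (y := y) (z := P) (ω := 0)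
          (ω' := ω) (Nat.cast_nonneg y) hyP hW0 hωR
        have h3 := Wr_cast (d := d) (m := m) (A := A) (y : ℤ)
        rw [Int.cast_natCast] at h3
        rw [← h3]
        linarith
      have h2 := sum_le_sum h1
      rw [← mul_sum, ← sum_mul] at h2
      have h3 : ∀ n : ℕ, 2 * ∑ y ∈ range (n + 1), (y : ℝ) = n * (n + 1) := by
        intro n
        induction n with
        | zero => simp
        | succ n ih =>
          rw [sum_range_succ, mul_add, ih]
          push_cast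
          ring
      have h4 := h3 P
      have h5 : (ω : ℝ) * (P + 1) * P ≤ 2 * (∑ y ∈ range (P + 1), (Wz d m A (y : ℤ) : ℝ)) * P := by
        nlinarith
      exact le_of_mul_le_mul_right h5 hPR
  -- the upper part
  have hup : (ω : ℝ) * n ≤ 4 * ∑ j ∈ range n, (Wz d m A ((P + 1 + j : ℕ) : ℤ) : ℝ) := by
    rcases Nat.eq_zero_or_pos n with h0 | h0
    · subst h0
      simp
    · have hD : (0 : ℝ) < (d : ℝ) / 3 - P := by
        have : (3 * P : ℝ) < d := by exact_mod_cast hP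
        linarith
      have h1 : ∀ j ∈ range n, (ω : ℝ) * ((d : ℝ) / 3 - (P + 1 + j)) ≤
          (Wz d m A ((P + 1 + j : ℕ) : ℤ) : ℝ) * ((d : ℝ) / 3 - P) := by
        intro j hj
        rw [mem_range] at hj
        have hj1 : 3 * (P + 1 + j) ≤ d := by omega
        have hj2 : 3 * ((P : ℝ) + 1 + j) ≤ d := by exact_mod_cast hj1
        have hj0 : (0 : ℝ) ≤ j := Nat.cast_nonneg j
        have h2 := Wr_chord hA (P := P) (ω := ω) (y := (P : ℝ) + 1 + j) (by linarith) hωR
          (by linarith) hj2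
        have h3 := Wr_cast (d := d) (m := m) (A := A) ((P + 1 + j : ℕ) : ℤ)
        rw [← h3]
        push_cast
        exact h2
      have h2 := sum_le_sum h1
      rw [← mul_sum, ← sum_mul] at h2
      have h3 : ∀ n : ℕ, 2 * ∑ j ∈ range n, ((d : ℝ) / 3 - (P + 1 + j)) =
          n * (2 * (d / 3) - 2 * P - 1 - n) := by
        intro n
        induction n with
        | zero => simp
        | succ n ih =>
          rw [sum_range_succ, mul_add, ih]
          push_cast
          ring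
      have h4 := h3 n
      have hnR : (1 : ℝ) ≤ n := by exact_mod_cast h0
      have hdR : 3 * ((P : ℝ) + 1 + n) ≤ d + 2 := by
        have : 3 * (P + 1 + n) ≤ d + 2 := by omega
        exact_mod_cast this
      have h5 : (ω : ℝ) * n * ((d : ℝ) / 3 - P) ≤
          4 * (∑ j ∈ range n, (Wz d m A ((P + 1 + j : ℕ) : ℤ) : ℝ)) * ((d : ℝ) / 3 - P) := by
        have h6 : (d : ℝ) / 3 - P ≤ 2 * (2 * (d / 3) - 2 * P - 1 - n) := by linarith
        have h7 : (ω : ℝ) * n * ((d : ℝ) / 3 - P) ≤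
            ω * n * (2 * (2 * (d / 3) - 2 * P - 1 - n)) :=
          mul_le_mul_of_nonneg_left h6 (by positivity)
        have h8 : ω * n * (2 * (2 * ((d : ℝ) / 3) - 2 * P - 1 - n)) =
            4 * (ω * ∑ j ∈ range n, ((d : ℝ) / 3 - (P + 1 + j))) := by
          have : ω * n * (2 * (2 * ((d : ℝ) / 3) - 2 * P - 1 - n)) =
            2 * (ω * (n * (2 * (d / 3) - 2 * P - 1 - n))) := by ring
          rw [this, ← h4]
          ring
        linarith
      exact le_of_mul_le_mul_right h5 hD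
  have h1 := card_F0' q t hA hW
  rw [← hh] at h1 ⊢
  have h2 : ((F0 d q t m A).card : ℝ) = ∑ y ∈ range (P + 1), (Wz d m A (y : ℤ) : ℝ) +
      ∑ j ∈ range n, (Wz d m A ((P + 1 + j : ℕ) : ℤ) : ℝ) := by
    have h3 : ((F0 d q t m A).card : ℝ) = ((∑ y ∈ range h, Wz d m A (y : ℤ) : ℤ) : ℝ) := by
      rw [← h1]
      push_cast
      rfl
    rw [h3, hn, sum_range_add]
    push_cast
    rfl
  have h3 : ((ω * h : ℕ) : ℝ) ≤ ((4 * (F0 d q t m A).card : ℕ) : ℝ) := by
    rw [hn]
    push_cast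
    rw [h2]
    nlinarith
  exact_mod_cast h3

/-- the box -/
theorem box_F {q : ℕ} {t : ℤ} (hq : 0 < q) {ω : ℕ}
    (hω : ∀ y : ℕ, 3 * y ≤ d → Wz d m A (y : ℤ) ≤ ω) (hh : (d + 2) / 3 ≤ q ^ 2 * ω) :
    ∃ a b : ℤ, ∀ p : ℤ × ℤ, Rg d q t m A p →
      (a ≤ p.1 ∧ p.1 < a + (2 * (q * ω) + 1 : ℕ)) ∧
        (b ≤ p.2 - q * p.1 ∧ p.2 - q * p.1 < b + (2 * (q * ω) + 1 : ℕ)) := by
  have hqZ : (0 : ℤ) < q := by exact_mod_cast hq
  obtain ⟨C, hC⟩ : ∃ C : ℤ, C = (q * t - 1) * d := ⟨_, rfl⟩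
  refine ⟨-((-C) / (3 * q)) - ω, -(C / 3), ?_⟩
  rintro ⟨x, y⟩ ⟨⟨h1, h2⟩, h3, h4⟩
  simp only at h1 h2 h3 h4 ⊢
  have hv : vv d q t (x, y) ≤ 0 := by
    by_contra hc
    push Not at hc
    have : 0 < ((d : ℤ) + 1) * vv d q t (x, y) := by positivity
    linarith
  obtain ⟨n, rfl⟩ := Int.eq_ofNat_of_zero_le h1
  have h5 := hω n (by omega)
  have h6 : 3 * (q : ℤ) * Wz d m A (n : ℤ) ≤ 3 * q * ω :=
    mul_le_mul_of_nonneg_left h5 (by positivity)
  have hv2 : -(3 * (q : ℤ) * ω) ≤ vv d q t (x, (n : ℤ)) := by linarith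
  unfold vv at hv hv2
  simp only at hv hv2
  rw [← hC] at hv hv2
  have h7 : (((d + 2) / 3 : ℕ) : ℤ) ≤ (q : ℤ) ^ 2 * ω := by exact_mod_cast hh
  have h8 : (d : ℤ) ≤ 3 * ((q : ℤ) ^ 2 * ω) := by omega
  have hqω : (ω : ℤ) ≤ q * ω := by
    have : (1 : ℤ) * ω ≤ q * ω := mul_le_mul_of_nonneg_right (by omega) (by positivity)
    linarith
  have k1 : (-C) / (3 * q) * (3 * q) ≤ -C := Int.ediv_mul_le _ (by positivity)
  have k2 : -C < ((-C) / (3 * q) + 1) * (3 * q) := Int.lt_ediv_add_one_mul_self _ (by positivity)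
  obtain ⟨e, he⟩ : ∃ e, e = (-C) / (3 * (q : ℤ)) := ⟨_, rfl⟩
  rw [← he] at k1 k2 ⊢
  have k3 : C / 3 * 3 ≤ C := Int.ediv_mul_le _ (by norm_num)
  have k4 : C < (C / 3 + 1) * 3 := Int.lt_ediv_add_one_mul_self _ (by norm_num)
  obtain ⟨g, hg⟩ : ∃ g, g = C / 3 := ⟨_, rfl⟩
  rw [← hg] at k3 k4 ⊢
  push_cast
  refine ⟨⟨?_, ?_⟩, ?_, ?_⟩
  · -- `3 q (x + e + ω) ≥ ... > -3 q`
    have : 0 < 3 * (q : ℤ) * (x + e + ω + 1) := by
      have : 3 * (q : ℤ) * (x + e + ω + 1) = (3 * q * x - C - 3 * n + 3 * q * ω) + 3 * n +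
        (C + (e + 1) * (3 * q)) := by ring
      rw [this]
      linarith
    have := pos_of_mul_pos_right this (by positivity)
    omega
  · have h9 : 3 * (q : ℤ) * (x + e) ≤ 3 * q * (q * ω) := by
      have : 3 * (q : ℤ) * (x + e) = (3 * q * x - C - 3 * n) + 3 * n + (C + e * (3 * q)) := by ring
      rw [this]
      have : 3 * (q : ℤ) * (q * ω) = 3 * (q ^ 2 * ω) := by ring
      linarith
    have := le_of_mul_le_mul_left h9 (by positivity)
    linarith
  · have : 3 * ((n : ℤ) - q * x) ≥ -C := by linarith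
    omega
  · have h10 : 3 * ((n : ℤ) - q * x) ≤ -C + 3 * (q * ω) := by linarith
    omega

end Pool.Agent.H879.Room
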