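import Pool.Agent.H879.Room.Near
import Pool.Graph.R_seed8.TH603.Sur.Main

/-! The passage to linear systems of plane curves. -/

set_option autoImplicit false

namespace Pool.Agent.H879.Room

open Finset Pool.Agent.TH176.Nag Pool.Agent.TH603.Sur Pool.Agent.H932R3 Pool.Agent.H879.Nine

/-- one open set for all degrees, from the two criteria -/
theorem open_crit {n : ℕ} {m : Fin n → ℕ} {B : ℕ → Prop}
    (hB : ∀ d, B d → ((d + 1) * (d + 2) ≤ ∑ i, m i * (m i + 1) → Emp m (TZ d)) ∧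
      (∑ i, m i * (m i + 1) ≤ (d + 1) * (d + 2) → Sur m (TZ d))) :
    ∃ F : MvPolynomial (Fin n × Fin 2) ℚ, F ≠ 0 ∧ ∀ {L : Type} [Field L] [CharZero L]
      (P : Fin n → Fin 2 → L), MvPolynomial.aeval (fun ij : Fin n × Fin 2 => P ij.1 ij.2) F ≠ 0 →
      ∀ d, B d → ExpDim L m P d := by
  obtain ⟨F, hF, hF'⟩ := expDim_two (w := m)
    (A := fun d => (d + 1) * (d + 2) ≤ ∑ i, m i * (m i + 1) ∧ B d)
    (B := fun d => ∑ i, m i * (m i + 1) ≤ (d + 1) * (d + 2) ∧ B d)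
    (∑ i, m i * (m i + 1))
    (fun d hd => by
      have h := hd.1
      have e : (d + 1) * (d + 2) = d * d + 3 * d + 2 := by ring
      omega)
    (fun d hd => (hB d hd.2).1 hd.1) (fun d hd => (hB d hd.2).2 hd.1)
  refine ⟨F, hF, fun {L} _ _ P hP d hd => hF' P hP d ?_⟩
  rcases le_total ((d + 1) * (d + 2)) (∑ i, m i * (m i + 1)) with h | h
  · exact Or.inl ⟨h, hd⟩
  · exact Or.inr ⟨h, hd⟩

end Pool.Agent.H879.Room
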