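import Pool.Agent.H879.Room.Count
import Pool.Graph.R_seed8.TH603.Sur.Main

/-! Exactness for systems with several multiplicities up to `d / 3` and arbitrary small ones. -/

set_option autoImplicit false

namespace Pool.Agent.H879.Room

open Finset Pool.Agent.TH176.Nag Pool.Agent.TH603.Sur Pool.Agent.H879.Nine
open Pool.Agent.Y205.MD Pool.Agent.Y205.FW
open Pool.Agent.TH387.SH (TF coe_TF card_TF)

/-- one monomial and one positive multiplicity -/
theorem Emp_one {ι : Type} {w : ι → ℕ} {i : ι} (hi : 1 ≤ w i) {S : Set (ℤ × ℤ)} {p : ℤ × ℤ}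
    (hS : S ⊆ {p}) : Emp w S := by
  refine ⟨ℚ, inferInstance, inferInstance, fun _ => 1, fun _ => 1, fun _ => one_ne_zero,
    fun _ => one_ne_zero, fun f hf h => ?_⟩
  have h1 := h i (fun _ => 1) (by simpa using PF_desc2 (K := ℚ) (a := 0) (b := 0) (w := w i) (by omega))
  have hf2 : f = Finsupp.single p (f p) := by
    ext m
    by_cases hm : m = p
    · subst hm
      rw [Finsupp.single_eq_same]
    · rw [Finsupp.single_eq_of_ne hm]
      by_contra hc
      exact hm (hS (hf (Finsupp.mem_support_iff.2 hc)))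
  rw [hf2] at h1
  unfold pr at h1
  rw [Finsupp.sum_single_index (by simp)] at h1
  simp at h1
  rw [hf2, h1, Finsupp.single_zero]

theorem Sur_empty {ι : Type} [Fintype ι] {w : ι → ℕ} (h : cond w = 0) (S : Set (ℤ × ℤ)) :
    Sur w S := ⟨∅, by simp, by rw [h]; rfl, Emp_nil w⟩

/-- `(d + 1) (d + 2) - ∑_A m i (m i + 1)` -/
def rm {ι : Type} (d : ℕ) (m : ι → ℕ) (A : Finset ι) : ℤ :=
  (d + 1) * (d + 2) - ∑ i ∈ A, (m i : ℤ) * (m i + 1)

/-- the choice of the slope -/
theorem exists_q {h ω : ℕ} (hω : 1 ≤ ω) (hh : 1 ≤ h) (hωh : ω ≤ 9 * h) :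
    ∃ q : ℕ, 0 < q ∧ h ≤ q ^ 2 * ω ∧ (2 * (q * ω)) ^ 2 ≤ 36 * (ω * h) := by
  classical
  have hex : ∃ q : ℕ, h ≤ q ^ 2 * ω := by
    refine ⟨h, ?_⟩
    have h1 : h * 1 ≤ h * h := Nat.mul_le_mul_left _ hh
    have h2 : h ^ 2 * 1 ≤ h ^ 2 * ω := Nat.mul_le_mul_left _ hω
    have h3 : h ^ 2 = h * h := sq h
    omega
  obtain ⟨q, hq⟩ : ∃ q, q = Nat.find hex := ⟨_, rfl⟩
  have h1 : h ≤ q ^ 2 * ω := by rw [hq]; exact Nat.find_spec hex
  have h0 : 0 < q := by
    by_contra hc
    have : q = 0 := by omega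
    rw [this] at h1
    simp at h1
    omega
  refine ⟨q, h0, h1, ?_⟩
  obtain ⟨k, rfl⟩ : ∃ k, q = k + 1 := ⟨q - 1, by omega⟩
  have h2 : k ^ 2 * ω < h := by
    have h3 := Nat.find_min hex (m := k) (by omega)
    push Not at h3
    exact h3
  rcases Nat.eq_zero_or_pos k with hk | hk
  · subst hk
    nlinarith
  · have h3 : (2 * ((k + 1) * ω)) ^ 2 ≤ 16 * ((k ^ 2 * ω) * ω) := by
      have h4 : (k + 1) ^ 2 ≤ (2 * k) ^ 2 := Nat.pow_le_pow_left (by omega) 2
      have h5 : (k + 1) ^ 2 * (4 * ω ^ 2) ≤ (2 * k) ^ 2 * (4 * ω ^ 2) := Nat.mul_le_mul_right _ h4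
      nlinarith
    have h4 : (k ^ 2 * ω) * ω ≤ h * ω := Nat.mul_le_mul_right _ h2.le
    nlinarith

section

variable {ι : Type} [Fintype ι] [DecidableEq ι] {d : ℕ} {m : ι → ℕ} {A : Finset ι}

omit [DecidableEq ι] in
theorem two_cond' (w : ι → ℕ) : 2 * cond w = ∑ i, w i * (w i + 1) := by
  unfold Pool.Agent.TH603.Sur.cond
  rw [mul_sum]
  refine sum_congr rfl fun i _ => ?_
  have h := Nat.triangle_succ (w i)
  rw [Nat.choose_two_right, Nat.add_sub_cancel, mul_comm (w i + 1) (w i)]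
  exact Nat.mul_div_cancel' (Nat.even_mul_succ_self (w i)).two_dvd

theorem sum_zeroed (f : ℕ → ℕ) (hf : f 0 = 0) :
    ∑ i, f (if i ∈ A then 0 else m i) = ∑ i ∈ univ \ A, f (m i) := by
  have h1 := sum_sdiff (subset_univ A) (f := fun i => f (if i ∈ A then 0 else m i))
  rw [← h1]
  have h2 : ∑ i ∈ A, f (if i ∈ A then 0 else m i) = 0 :=
    sum_eq_zero fun i hi => by rw [if_pos hi, hf]
  rw [h2, add_zero]
  refine sum_congr rfl fun i hi => ?_
  rw [if_neg (mem_sdiff.1 hi).2]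

/-- **the criterion** -/
theorem main_crit {μ r : ℕ} (hA : ∀ i ∈ A, 3 * m i ≤ d) (hW : ∑ i ∈ A, m i ≤ 3 * d)
    (hμ : ∀ i, i ∉ A → m i ≤ μ) (hr : rm d m A ≤ (r : ℤ) ^ 2)
    (h : 8000000 * (((μ : ℤ) + 1) * (r + μ + 1)) ≤ ∑ i ∈ univ \ A, (m i : ℤ) +
      2 * |(d + 1) * (d + 2) - ∑ i, (m i : ℤ) * (m i + 1)|) :
    ((d + 1) * (d + 2) ≤ ∑ i, m i * (m i + 1) → Emp m (TZ d)) ∧
      (∑ i, m i * (m i + 1) ≤ (d + 1) * (d + 2) → Sur m (TZ d)) := by
  classical
  obtain ⟨w, hw⟩ : ∃ w : ι → ℕ, w = fun i => if i ∈ A then 0 else m i := ⟨_, rfl⟩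
  have hwμ : ∀ i, w i ≤ μ := by
    intro i
    rw [hw]
    simp only
    split_ifs with hi
    · exact Nat.zero_le _
    · exact hμ i hi
  have hwS : ∑ i, w i = ∑ i ∈ univ \ A, m i := by
    rw [hw]
    exact sum_zeroed (fun x => x) rfl
  have hwV : 2 * cond w = ∑ i ∈ univ \ A, m i * (m i + 1) := by
    rw [two_cond', hw]
    exact sum_zeroed (fun x => x * (x + 1)) rfl
  obtain ⟨S, hS⟩ : ∃ S, S = ∑ i ∈ univ \ A, m i := ⟨_, rfl⟩
  obtain ⟨V, hV⟩ : ∃ V, V = ∑ i ∈ univ \ A, m i * (m i + 1) := ⟨_, rfl⟩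
  have hSV : S ≤ V := by
    rw [hS, hV]
    exact sum_le_sum fun i _ => Nat.le_mul_of_pos_right _ (Nat.succ_pos _)
  have htot : ∑ i, (m i : ℤ) * (m i + 1) = ∑ i ∈ A, (m i : ℤ) * (m i + 1) + V := by
    rw [← sum_sdiff (subset_univ A) (f := fun i => (m i : ℤ) * (m i + 1)), hV]
    push_cast
    ring
  have htotN : ((∑ i, m i * (m i + 1) : ℕ) : ℤ) = ∑ i ∈ A, (m i : ℤ) * (m i + 1) + V := by
    rw [← htot]
    push_cast
    rfl
  have hSc : ∑ i ∈ univ \ A, (m i : ℤ) = S := by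
    rw [hS]
    push_cast
    rfl
  rw [htot, hSc] at h
  have e0 : ((d : ℤ) + 1) * (d + 2) - (∑ i ∈ A, (m i : ℤ) * (m i + 1) + V) = rm d m A - V := by
    unfold rm
    ring
  rw [e0] at h
  rw [← hS] at hwS
  rw [← hV] at hwV
  -- the rows
  have hW0 : 0 ≤ Wz d m A 0 := by
    unfold Wz
    have h1 : ∑ i ∈ A, max ((m i : ℤ) - 0) 0 = ((∑ i ∈ A, m i : ℕ) : ℤ) := by
      push_cast
      refine sum_congr rfl fun i _ => ?_
      rw [sub_zero]
      exact max_eq_left (by positivity)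
    rw [h1]
    have : ((∑ i ∈ A, m i : ℕ) : ℤ) ≤ ((3 * d : ℕ) : ℤ) := by exact_mod_cast hW
    push_cast at this ⊢
    linarith
  have hcount := sum_Wz hA
  have hrm : (rm d m A : ℤ) = 2 * ∑ y ∈ range ((d + 2) / 3), Wz d m A (y : ℤ) +
      2 * (if 3 ∣ d then 1 else 0) := by
    rw [hcount]
    rfl
  have hF0 : ∀ q t : ℤ, (rm d m A : ℤ) = 2 * ((F0 d q t m A).card : ℤ) +
      2 * (if 3 ∣ d then 1 else 0) := fun q t => by
    rw [hrm, card_F0' q t hA hW0]
  have hμ1 : (1 : ℤ) ≤ (μ : ℤ) + 1 := by linarith [Int.natCast_nonneg μ]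
  have hμr : ((μ : ℤ) + 1) * 1 ≤ ((μ : ℤ) + 1) * (r + μ + 1) :=
    mul_le_mul_of_nonneg_left (by linarith [Int.natCast_nonneg μ, Int.natCast_nonneg r])
      (by linarith)
  have h3d : (if 3 ∣ d then 1 else 0 : ℤ) ≤ 1 ∧ (0 : ℤ) ≤ (if 3 ∣ d then 1 else 0 : ℤ) := by
    split_ifs <;> simp
  -- the key claim
  have key : ∃ q : ℕ, 0 < q ∧ ∀ t : ℤ,
      (rm d m A ≤ V → Emp w {p | Rg d q t m A p}) ∧
      ((V : ℤ) ≤ 2 * ((F0 d q t m A).card : ℤ) →
        Sur w {p | Rg d q t m A p ∧ 3 * p.2 < d}) := by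
    by_cases hz : ∀ y ∈ range ((d + 2) / 3), Wz d m A (y : ℤ) = 0
    · -- no rows
      refine ⟨1, one_pos, fun t => ⟨fun hle => ?_, fun hle => ?_⟩⟩
      · -- one monomial at most
        have hr2 : rm d m A ≤ 2 := by
          rw [hrm, sum_eq_zero hz]
          linarith [h3d.1]
        have hr0 : 0 ≤ rm d m A := by
          rw [hrm, sum_eq_zero hz]
          linarith [h3d.2]
        have hVpos : 0 < V := by
          by_contra hc
          have hV0 : V = 0 := by omega
          have hS0 : S = 0 := by omega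
          rw [hV0, hS0] at h
          have : |rm d m A - ((0 : ℕ) : ℤ)| ≤ 2 := by
            rw [abs_le]
            push_cast
            constructor <;> linarith
          push_cast at h this
          linarith
        obtain ⟨i, hi⟩ : ∃ i, 1 ≤ w i := by
          by_contra hc
          push Not at hc
          have : 2 * cond w = 0 := by
            rw [two_cond']
            refine sum_eq_zero fun i _ => ?_
            have := hc i
            have h0 : w i = 0 := by omega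
            rw [h0, zero_mul]
          omega
        refine Emp_one hi (p := (t * ((d / 3 : ℕ) : ℤ), ((d / 3 : ℕ) : ℤ))) fun p hp => ?_
        have h1 : p ∈ F1 d ((1 : ℕ) : ℤ) t m A := (mem_F1 (by norm_num) hA p).2 hp
        unfold F1 at h1
        have h2 : F0 d ((1 : ℕ) : ℤ) t m A = ∅ := by
          rw [← card_eq_zero]
          have := card_F0' ((1 : ℕ) : ℤ) t hA hW0
          rw [sum_eq_zero hz] at this
          exact_mod_cast this
        rw [h2, empty_union] at h1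
        split_ifs at h1 with h3
        · exact mem_singleton.1 h1
        · exact absurd h1 (notMem_empty _)
      · have hV0 : V = 0 := by
          have := card_F0' ((1 : ℕ) : ℤ) t hA hW0
          rw [sum_eq_zero hz] at this
          omega
        exact Sur_empty (by omega) _
    · push Not at hz
      obtain ⟨y0, hy0, hne⟩ := hz
      have hne0 : (range ((d + 2) / 3)).Nonempty := ⟨y0, hy0⟩
      obtain ⟨P, hP, hmax⟩ := Finset.exists_max_image (range ((d + 2) / 3))
        (fun y : ℕ => Wz d m A (y : ℤ)) hne0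
      have hnn : ∀ y : ℕ, 3 * y ≤ d → 0 ≤ Wz d m A (y : ℤ) := fun y hy =>
        Wz_nonneg hA hW0 (by positivity) (by omega)
      rw [mem_range] at hP hy0
      have hP3 : 3 * P < d := by omega
      obtain ⟨ω, hω⟩ := Int.eq_ofNat_of_zero_le (hnn P hP3.le)
      have hω1 : 1 ≤ ω := by
        have h1 := hmax y0 (mem_range.2 hy0)
        have h2 := hnn y0 (by omega)
        omega
      have hω9 : ω ≤ 9 * ((d + 2) / 3) := by
        have h1 : Wz d m A (P : ℤ) ≤ 3 * d := by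
          unfold Wz
          have h2 : 0 ≤ ∑ i ∈ A, max ((m i : ℤ) - (P : ℤ)) 0 :=
            sum_nonneg fun i _ => le_max_right _ _
          have h3 : (0 : ℤ) ≤ P := by positivity
          linarith
        omega
      obtain ⟨q, hq, hq1, hq2⟩ := exists_q (h := (d + 2) / 3) hω1 (by omega) hω9
      refine ⟨q, hq, fun t => ?_⟩
      have hqZ : (0 : ℤ) < q := by exact_mod_cast hq
      have hbound : ∀ y : ℕ, 3 * y ≤ d → Wz d m A (y : ℤ) ≤ ω := by
        intro y hy
        rcases (by omega : 3 * y < d ∨ 3 * y = d) with h1 | h1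
        · have := hmax y (mem_range.2 (by omega))
          omega
        · rw [Wz_apex hA (by exact_mod_cast h1)]
          positivity
      obtain ⟨a, b, hbox⟩ := box_F (t := t) hq hbound hq1
      have hge := card_ge q t hA hW0 hP3 hω.symm
      -- the size of the box
      obtain ⟨N, hN⟩ : ∃ N, N = 2 * (q * ω) := ⟨_, rfl⟩
      rw [← hN] at hbox hq2
      have hNr : 100 * N ≤ 849 * r := by
        have h1 : ((N : ℤ)) ^ 2 ≤ 72 * (r : ℤ) ^ 2 := by
          have h2 : ((N : ℤ)) ^ 2 ≤ 36 * ((ω : ℤ) * ((((d + 2) / 3 : ℕ)) : ℤ)) := by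
            exact_mod_cast hq2
          have h3 : (ω : ℤ) * ((((d + 2) / 3 : ℕ)) : ℤ) ≤ 4 * ((F0 d q t m A).card : ℤ) := by
            exact_mod_cast hge
          have h4 := hF0 q t
          linarith [h3d.2]
        have h2 : ((100 * N : ℕ) : ℤ) ^ 2 ≤ ((849 * r : ℕ) : ℤ) ^ 2 := by
          push_cast
          nlinarith
        have h3 : ((100 * N : ℕ) : ℤ) ≤ ((849 * r : ℕ) : ℤ) :=
          le_of_sq_le_sq h2 (by positivity)
        exact_mod_cast h3
      have hnum : ∀ δ : ℕ, |rm d m A - V| ≤ δ + 2 →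
          901120 * ((μ + 1) * (N + 1)) + 3661120 * (μ + 1) ^ 2 ≤ ∑ i, w i + 2 * δ := by
        intro δ hδ
        rw [hwS]
        have h1 : (100 * (N : ℤ)) ≤ 849 * r := by exact_mod_cast hNr
        have h2 : ((μ : ℤ) + 1) * (100 * N) ≤ (μ + 1) * (849 * r) :=
          mul_le_mul_of_nonneg_left h1 (by linarith)
        have h3 : 901120 * (((μ : ℤ) + 1) * (N + 1)) + 3661120 * ((μ : ℤ) + 1) ^ 2 ≤ S + 2 * δ := by
          have h4 : 901120 * (((μ : ℤ) + 1) * (N + 1)) = 901120 * (((μ : ℤ) + 1) * N) +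
            901120 * (μ + 1) := by ring
          have h5 : (((μ : ℤ) + 1) * (r + μ + 1)) = ((μ : ℤ) + 1) * r + (μ + 1) ^ 2 := by ring
          rw [h5] at h
          have h6 : (0 : ℤ) ≤ ((μ : ℤ) + 1) * r := by positivity
          have h7 : (μ : ℤ) + 1 ≤ (μ + 1) ^ 2 := by nlinarith
          have h8 : ((μ : ℤ) + 1) * N * 100 ≤ ((μ : ℤ) + 1) * r * 849 := by linarith
          linarith
        exact_mod_cast h3
      refine ⟨fun hle => ?_, fun hle => ?_⟩
      · have hmem := mem_F1 (t := t) hqZ hA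
        have hc1 : (rm d m A : ℤ) = 2 * ((F1 d q t m A).card : ℤ) := by
          rw [card_F1 hqZ, hF0 q t]
          push_cast
          split_ifs <;> ring
        have hge1 : 2 * (F1 d q t m A).card ≤ V := by
          have : (2 * ((F1 d q t m A).card : ℤ)) ≤ V := by linarith
          exact_mod_cast this
        obtain ⟨δ, hδ⟩ := Nat.exists_eq_add_of_le hge1
        have hex := Ex_box (w := w) (μ := μ) (δ := δ) (N := N + 1) (S := F1 d q t m A)
          (P := Rg d q t m A) q a b (Rg_poly hqZ) hmem (fun p hp => hbox p ((hmem p).1 hp)) hwμ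
          (Or.inr (by rw [hwV]; exact hδ.symm)) (hnum δ (by
            rw [hc1, abs_le]
            have : (V : ℤ) = 2 * ((F1 d q t m A).card : ℤ) + δ := by exact_mod_cast hδ
            constructor <;> linarith [Int.natCast_nonneg δ]))
        have h1 := Emp_of_Ex hex (by omega)
        refine h1.mono fun p hp => mem_coe.2 ((hmem p).2 hp)
      · have hmem := mem_F0 (d := d) (t := t) (m := m) (A := A) hqZ
        have hge1 : V ≤ 2 * (F0 d q t m A).card := by exact_mod_cast hle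
        obtain ⟨δ, hδ⟩ := Nat.exists_eq_add_of_le hge1
        have hex := Ex_box (w := w) (μ := μ) (δ := δ) (N := N + 1) (S := F0 d q t m A)
          (P := fun p => Rg d q t m A p ∧ 3 * p.2 < d) q a b (Rg0_poly hqZ) hmem
          (fun p hp => hbox p ((hmem p).1 hp).1) hwμ
          (Or.inl (by rw [hwV]; exact hδ)) (hnum δ (by
            rw [hF0 q t, abs_le]
            have : 2 * ((F0 d q t m A).card : ℤ) = (V : ℤ) + δ := by exact_mod_cast hδ
            constructor <;> linarith [Int.natCast_nonneg δ, h3d.1, h3d.2]))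
        have h1 := Sur_of_Ex hex (by omega)
        exact h1.mono fun p hp => (hmem p).1 (mem_coe.1 hp)
  obtain ⟨q, hq, hkey⟩ := key
  obtain ⟨t, ht⟩ := exists_region (ι := ι) d q hq
  obtain ⟨ht1, ht2⟩ := ht m A hA
  rw [← hw] at ht1 ht2
  obtain ⟨hk1, hk2⟩ := hkey t
  have hdd : (((d + 1) * (d + 2) : ℕ) : ℤ) = ((d : ℤ) + 1) * (d + 2) := by push_cast; ring
  have hE : (d + 1) * (d + 2) ≤ ∑ i, m i * (m i + 1) → Emp m (TZ d) := by
    intro hle
    refine ht1 (hk1 ?_)
    have h1 : (((d + 1) * (d + 2) : ℕ) : ℤ) ≤ ((∑ i, m i * (m i + 1) : ℕ) : ℤ) := by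
      exact_mod_cast hle
    rw [htotN, hdd] at h1
    unfold rm
    linarith
  refine ⟨hE, fun hle => ?_⟩
  rcases hle.lt_or_eq with hlt | heq
  · have h1 : ((∑ i, m i * (m i + 1) : ℕ) : ℤ) < (((d + 1) * (d + 2) : ℕ) : ℤ) := by
      exact_mod_cast hlt
    rw [htotN, hdd] at h1
    have h2 : (V : ℤ) < rm d m A := by
      unfold rm
      linarith
    -- parity
    have h3 := hF0 q t
    have h4 : (V : ℤ) = 2 * (cond w : ℤ) := by exact_mod_cast hwV.symm
    refine ht2 hW0 (hk2 ?_)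
    rcases h3d with ⟨h5, h6⟩
    omega
  · have h1 := hE heq.ge
    refine ⟨TF d, by rw [coe_TF], ?_, by rw [coe_TF]; exact h1⟩
    have h2 := two_cond' m
    rw [card_TF]
    have h4 : 2 * (d + 2).choose 2 = (d + 1) * (d + 2) := Pool.Agent.TH2.NU.two_choose (d + 1)
    omega

end

end Pool.Agent.H879.Room
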