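import Pool.Agent.H879.Room.Main

/-! The closed forms of the criterion. -/

set_option autoImplicit false

namespace Pool.Agent.H879.Room

open Finset Pool.Agent.TH176.Nag Pool.Agent.TH603.Sur Pool.Agent.H879.Nine
open Pool.Agent.Y205.MD Pool.Agent.Y205.FW
open Pool.Agent.TH387.SH (TF coe_TF card_TF)

section

variable {ι : Type} [Fintype ι] [DecidableEq ι] {d : ℕ} {m : ι → ℕ} {A : Finset ι}

/-- the room is at most two: nothing but the apex -/
theorem small_room (hA : ∀ i ∈ A, 3 * m i ≤ d) (hW : ∑ i ∈ A, m i ≤ 3 * d)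
    (hr : rm d m A ≤ 2) :
    ((d + 1) * (d + 2) ≤ ∑ i, m i * (m i + 1) → Emp m (TZ d)) ∧
      (∑ i, m i * (m i + 1) ≤ (d + 1) * (d + 2) → Sur m (TZ d)) := by
  classical
  obtain ⟨w, hw⟩ : ∃ w : ι → ℕ, w = fun i => if i ∈ A then 0 else m i := ⟨_, rfl⟩
  have hwV : 2 * cond w = ∑ i ∈ univ \ A, m i * (m i + 1) := by
    rw [two_cond', hw]
    exact sum_zeroed (fun x => x * (x + 1)) rfl
  obtain ⟨V, hV⟩ : ∃ V, V = ∑ i ∈ univ \ A, m i * (m i + 1) := ⟨_, rfl⟩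
  rw [← hV] at hwV
  have htotN : ((∑ i, m i * (m i + 1) : ℕ) : ℤ) = ∑ i ∈ A, (m i : ℤ) * (m i + 1) + V := by
    rw [← sum_sdiff (subset_univ A) (f := fun i => m i * (m i + 1)), hV]
    push_cast
    ring
  have hdd : (((d + 1) * (d + 2) : ℕ) : ℤ) = ((d : ℤ) + 1) * (d + 2) := by push_cast; ring
  have hW0 : 0 ≤ Wz d m A 0 := by
    unfold Wz
    have h1 : ∑ i ∈ A, max ((m i : ℤ) - 0) 0 = ((∑ i ∈ A, m i : ℕ) : ℤ) := by
      push_cast
      refine sum_congr rfl fun i _ => ?_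
      rw [sub_zero]
      exact max_eq_left (by positivity)
    rw [h1]
    have : ((∑ i ∈ A, m i : ℕ) : ℤ) ≤ ((3 * d : ℕ) : ℤ) := by exact_mod_cast hW
    push_cast at this ⊢
    linarith
  obtain ⟨t, ht⟩ := exists_region (ι := ι) d 1 one_pos
  obtain ⟨ht1, ht2⟩ := ht m A hA
  rw [← hw] at ht1 ht2
  have hc1 : (rm d m A : ℤ) = 2 * ((F1 d ((1 : ℕ) : ℤ) t m A).card : ℤ) := by
    rw [card_F1 (by norm_num)]
    have h1 := sum_Wz hA
    have h2 := card_F0' ((1 : ℕ) : ℤ) t hA hW0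
    unfold rm
    rw [← h1, ← h2]
    push_cast
    split_ifs <;> ring
  have hcard : (F1 d ((1 : ℕ) : ℤ) t m A).card ≤ 1 := by omega
  have hE : (d + 1) * (d + 2) ≤ ∑ i, m i * (m i + 1) → Emp m (TZ d) := by
    intro hle
    have h1 : (((d + 1) * (d + 2) : ℕ) : ℤ) ≤ ((∑ i, m i * (m i + 1) : ℕ) : ℤ) := by
      exact_mod_cast hle
    rw [htotN, hdd] at h1
    have h2 : rm d m A ≤ V := by
      unfold rm
      linarith
    refine ht1 ?_
    rcases Nat.eq_zero_or_pos V with h0 | h0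
    · have h3 : F1 d ((1 : ℕ) : ℤ) t m A = ∅ := by
        rw [← card_eq_zero]
        rw [h0] at h2
        push_cast at h2
        omega
      refine (Emp_nil w).mono fun p hp => ?_
      have h4 := (mem_F1 (by norm_num) hA p).2 hp
      rw [h3] at h4
      exact absurd h4 (notMem_empty _)
    · obtain ⟨i, hi⟩ : ∃ i, 1 ≤ w i := by
        by_contra hc
        push Not at hc
        have : 2 * cond w = 0 := by
          rw [two_cond']
          refine sum_eq_zero fun i _ => ?_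
          have := hc i
          have h0 : w i = 0 := by omega
          rw [h0, zero_mul]
        omega
      rcases (F1 d ((1 : ℕ) : ℤ) t m A).eq_empty_or_nonempty with he | ⟨p, hp⟩
      · refine (Emp_nil w).mono fun p hp => ?_
        have h4 := (mem_F1 (by norm_num) hA p).2 hp
        rw [he] at h4
        exact absurd h4 (notMem_empty _)
      · refine Emp_one hi (p := p) fun p' hp' => ?_
        have h4 := (mem_F1 (by norm_num) hA p').2 hp'
        exact card_le_one.1 hcard _ h4 _ hp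
  refine ⟨hE, fun hle => ?_⟩
  rcases hle.lt_or_eq with hlt | heq
  · have h1 : ((∑ i, m i * (m i + 1) : ℕ) : ℤ) < (((d + 1) * (d + 2) : ℕ) : ℤ) := by
      exact_mod_cast hlt
    rw [htotN, hdd] at h1
    have h2 : (V : ℤ) < rm d m A := by
      unfold rm
      linarith
    exact ht2 hW0 (Sur_empty (by omega) _)
  · have h1 := hE heq.ge
    refine ⟨TF d, by rw [coe_TF], ?_, by rw [coe_TF]; exact h1⟩
    have h2 := two_cond' m
    rw [card_TF]
    have h4 : 2 * (d + 2).choose 2 = (d + 1) * (d + 2) := Pool.Agent.TH2.NU.two_choose (d + 1)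
    omega

/-- large room -/
theorem large_room {μ : ℕ} (hA : ∀ i ∈ A, 3 * m i ≤ d) (hW : ∑ i ∈ A, m i ≤ 3 * d)
    (hμ : ∀ i, i ∉ A → m i ≤ μ)
    (h : 256000000000000 * ((μ : ℤ) + 1) ^ 4 ≤ rm d m A) :
    ((d + 1) * (d + 2) ≤ ∑ i, m i * (m i + 1) → Emp m (TZ d)) ∧
      (∑ i, m i * (m i + 1) ≤ (d + 1) * (d + 2) → Sur m (TZ d)) := by
  have hμ0 : (0 : ℤ) ≤ μ := Int.natCast_nonneg μ
  have hμ1 : (1 : ℤ) ≤ (μ : ℤ) + 1 := by linarith
  obtain ⟨R, hR⟩ : ∃ R : ℤ, R = rm d m A := ⟨_, rfl⟩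
  have hR0 : 0 ≤ R := by rw [hR]; exact le_trans (by positivity) h
  obtain ⟨r, hr⟩ : ∃ r : ℕ, r = Nat.sqrt R.toNat + 1 := ⟨_, rfl⟩
  have hr1 : R ≤ (r : ℤ) ^ 2 := by
    have h1 := Nat.lt_succ_sqrt R.toNat
    have h2 : R.toNat ≤ r ^ 2 := by
      rw [hr, sq]
      exact h1.le
    have h3 : (R.toNat : ℤ) ≤ ((r ^ 2 : ℕ) : ℤ) := by exact_mod_cast h2
    rw [Int.toNat_of_nonneg hR0] at h3
    push_cast at h3
    exact h3
  have hr2 : ((r : ℤ) - 1) ^ 2 ≤ R := by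
    have h1 := Nat.sqrt_le R.toNat
    have h2 : (((Nat.sqrt R.toNat) * (Nat.sqrt R.toNat) : ℕ) : ℤ) ≤ (R.toNat : ℤ) := by
      exact_mod_cast h1
    rw [Int.toNat_of_nonneg hR0] at h2
    have h3 : ((r : ℤ) - 1) = (Nat.sqrt R.toNat : ℤ) := by rw [hr]; push_cast; ring
    rw [h3]
    push_cast at h2
    nlinarith
  have hr3 : 16000000 * ((μ : ℤ) + 1) ^ 2 ≤ r := by
    by_contra hc
    push Not at hc
    have h1 : (r : ℤ) ^ 2 < (16000000 * ((μ : ℤ) + 1) ^ 2) ^ 2 := by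
      apply pow_lt_pow_left₀ hc (Int.natCast_nonneg r) (by norm_num)
    have h2 : (16000000 * ((μ : ℤ) + 1) ^ 2) ^ 2 = 256000000000000 * ((μ : ℤ) + 1) ^ 4 := by ring
    rw [h2] at h1
    linarith
  refine main_crit (r := r) hA hW hμ (by rw [← hR]; exact hr1) ?_
  obtain ⟨S, hS⟩ : ∃ S : ℤ, S = ∑ i ∈ univ \ A, (m i : ℤ) := ⟨_, rfl⟩
  obtain ⟨V, hV⟩ : ∃ V : ℤ, V = ∑ i ∈ univ \ A, (m i : ℤ) * (m i + 1) := ⟨_, rfl⟩
  have htot : ∑ i, (m i : ℤ) * (m i + 1) = ∑ i ∈ A, (m i : ℤ) * (m i + 1) + V := by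
    rw [← sum_sdiff (subset_univ A) (f := fun i => (m i : ℤ) * (m i + 1)), hV]
    ring
  have e0 : ((d : ℤ) + 1) * (d + 2) - ∑ i, (m i : ℤ) * (m i + 1) = R - V := by
    rw [hR, htot]
    unfold rm
    ring
  rw [e0, ← hS]
  have hVS : V ≤ (μ + 1) * S := by
    rw [hV, hS, mul_sum]
    refine sum_le_sum fun i hi => ?_
    have h3 : (m i : ℤ) ≤ μ := by exact_mod_cast hμ i (mem_sdiff.1 hi).2
    have h4 : (0 : ℤ) ≤ m i := Nat.cast_nonneg _
    rw [mul_comm]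
    exact mul_le_mul_of_nonneg_right (by linarith) h4
  have hS0 : 0 ≤ S := by rw [hS]; exact sum_nonneg fun i _ => Nat.cast_nonneg _
  -- `R ≤ (μ + 1) (S + 2 |R - V|)`
  have h1 : R ≤ (μ + 1) * (S + 2 * |R - V|) := by
    have h2 := le_abs_self (R - V)
    have h3 := abs_nonneg (R - V)
    have h4 : 1 * |R - V| ≤ ((μ : ℤ) + 1) * |R - V| := mul_le_mul_of_nonneg_right hμ1 h3
    nlinarith
  -- `R ≥ (r - 1) ^ 2`
  by_contra hc
  push Not at hc
  have h5 : (μ + 1) * (S + 2 * |R - V|) < (μ + 1) * (8000000 * (((μ : ℤ) + 1) * (r + μ + 1))) :=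
    mul_lt_mul_of_pos_left hc (by linarith)
  have h6 : ((r : ℤ) - 1) ^ 2 < 8000000 * (((μ : ℤ) + 1) ^ 2 * (r + μ + 1)) := by
    have : (μ + 1) * (8000000 * (((μ : ℤ) + 1) * (r + μ + 1))) =
      8000000 * (((μ : ℤ) + 1) ^ 2 * (r + μ + 1)) := by ring
    linarith
  obtain ⟨Q, hQ⟩ : ∃ Q : ℤ, Q = ((μ : ℤ) + 1) ^ 2 := ⟨_, rfl⟩
  rw [← hQ] at h6 hr3
  have hQ1 : (μ : ℤ) + 1 ≤ Q := by rw [hQ]; nlinarith
  nlinarith

/-- large degree -/
theorem large_degree {μ : ℕ} (hA : ∀ i ∈ A, 3 * m i ≤ d) (hW : ∑ i ∈ A, m i ≤ 3 * d)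
    (hμ : ∀ i, i ∉ A → m i ≤ μ)
    (h : 2304000000000000 * ((μ : ℤ) + 1) ^ 4 ≤ d) :
    ((d + 1) * (d + 2) ≤ ∑ i, m i * (m i + 1) → Emp m (TZ d)) ∧
      (∑ i, m i * (m i + 1) ≤ (d + 1) * (d + 2) → Sur m (TZ d)) := by
  by_cases hcase : 256000000000000 * ((μ : ℤ) + 1) ^ 4 ≤ rm d m A
  · exact large_room hA hW hμ hcase
  · push Not at hcase
    have hd1 : (1 : ℤ) ≤ d := by
      have : (0 : ℤ) < ((μ : ℤ) + 1) ^ 4 := by positivity
      linarith
    have hWZ : ∑ i ∈ A, (m i : ℤ) ≤ 3 * d := by exact_mod_cast hW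
    have hterm : ∀ i ∈ A, 3 * ((m i : ℤ) * (m i + 1)) ≤ (m i : ℤ) * (d + 3) := by
      intro i hi
      have h1 : 3 * (m i : ℤ) ≤ d := by exact_mod_cast hA i hi
      have h2 : (0 : ℤ) ≤ m i := Nat.cast_nonneg _
      nlinarith
    refine small_room hA hW ?_
    unfold rm
    by_cases hall : ∀ i ∈ A, m i = 0 ∨ 3 * m i = d
    · -- all multiplicities are `0` or `d / 3`
      have h1 : ∀ i ∈ A, 3 * ((m i : ℤ) * (m i + 1)) = (m i : ℤ) * (d + 3) := by
        intro i hi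
        rcases hall i hi with h2 | h2
        · rw [h2]; simp
        · have : (d : ℤ) = 3 * m i := by exact_mod_cast h2.symm
          rw [this]; ring
      have h2 := sum_congr rfl h1
      rw [← mul_sum, ← sum_mul] at h2
      rcases hWZ.lt_or_eq with h3 | h3
      · exfalso
        have h4 : (∑ i ∈ A, (m i : ℤ)) * (d + 3) ≤ (3 * d - 1) * (d + 3) :=
          mul_le_mul_of_nonneg_right (by linarith) (by linarith)
        unfold rm at hcase
        nlinarith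
      · rw [h3] at h2
        nlinarith
    · exfalso
      push Not at hall
      obtain ⟨j, hj, hj0, hj3⟩ := hall
      have h1 : 3 * ∑ i ∈ A, (m i : ℤ) * (m i + 1) ≤
          (∑ i ∈ A, (m i : ℤ)) * (d + 3) - m j * (d - 3 * m j) := by
        rw [← add_sum_erase _ _ hj, ← add_sum_erase _ (fun i => (m i : ℤ)) hj, mul_add]
        have h2 : 3 * ∑ i ∈ A.erase j, (m i : ℤ) * (m i + 1) ≤
            (∑ i ∈ A.erase j, (m i : ℤ)) * (d + 3) := by
          rw [mul_sum, sum_mul]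
          exact sum_le_sum fun i hi => hterm i (mem_of_mem_erase hi)
        nlinarith
      have h2 : (∑ i ∈ A, (m i : ℤ)) * (d + 3) ≤ (3 * d) * (d + 3) :=
        mul_le_mul_of_nonneg_right hWZ (by linarith)
      have h3 : (1 : ℤ) ≤ m j := by
        have : 1 ≤ m j := Nat.one_le_iff_ne_zero.2 hj0
        exact_mod_cast this
      have h4 : 3 * (m j : ℤ) + 1 ≤ d := by
        have := hA j hj
        have : 3 * m j + 1 ≤ d := by omega
        exact_mod_cast this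
      have h5 : (d : ℤ) - 1 ≤ 3 * (m j * (d - 3 * m j)) := by nlinarith
      unfold rm at hcase
      nlinarith

end

end Pool.Agent.H879.Room
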