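import Pool.Agent.H879.Room.Box
import Pool.Agent.H879.Nine.Strip

/-! The strips with an apex as lattice polygons with integral equations. -/

set_option autoImplicit false

namespace Pool.Agent.H879.Room

open Finset Pool.Agent.TH176.Nag Pool.Agent.TH603.Sur Pool.Agent.TH105.N13 Pool.Agent.H879.Nine
open Pool.Agent.K7.H33.BP (IsPoly)

/-- absorbing the points of a finite set: emptiness -/
theorem Emp_absorb_all {ι : Type} [DecidableEq ι] (w : ι → ℕ) {β lam : ℝ} {H : ℕ}
    (A : Finset ι) : ∀ (L : ℤ → ℤ),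
    Emp (fun i => if i ∈ A then 0 else w i)
      (RR β lam (fun y => L y - ∑ i ∈ A, max ((w i : ℤ) - y) 0) H) →
    Emp w (RR β lam L H) := by
  induction A using Finset.induction_on with
  | empty =>
    intro L h
    simpa using h
  | insert a A ha ih =>
    intro L h
    refine ih L ?_
    have e : (fun i => if i ∈ A then 0 else w i) =
        Function.update (fun i => if i ∈ insert a A then 0 else w i) a (w a) := by
      funext i
      by_cases hi : i = a
      · subst hi
        simp [ha]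
      · rw [Function.update_of_ne hi]
        simp [hi]
    rw [e]
    refine Emp_update (w a) (RR_finite _ _ _ _) (fun m hm => hm.1)
      (fun y => ⌊β + lam * y⌋ - (L y - ∑ i ∈ A, max ((w i : ℤ) - y) 0) + 1) (fun m hm => ?_)
      (fun m hm hm2 => ?_) (by simp) h
    · have := hm.2.2.1
      simp only at this
      omega
    · obtain ⟨h1, h2, h3, h4⟩ := hm
      refine ⟨h1, h2, ?_, h4⟩
      simp only at h3 ⊢
      rw [sum_insert ha]
      rcases le_total ((w a : ℤ) - m.2) 0 with h5 | h5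
      · rw [max_eq_right h5]
        omega
      · rw [max_eq_left h5]
        omega

/-- `3 q x - (q t - 1) d - 3 y`: the position with respect to the right ends of the rows -/
def vv (d : ℕ) (q t : ℤ) (p : ℤ × ℤ) : ℤ := 3 * q * p.1 - (q * t - 1) * d - 3 * p.2

/-- the strip of slope `1 / q` with the apex -/
def Rg {ι : Type} (d : ℕ) (q t : ℤ) (m : ι → ℕ) (A : Finset ι) (p : ℤ × ℤ) : Prop :=
  (0 ≤ p.2 ∧ 3 * p.2 ≤ d) ∧ 0 ≤ vv d q t p + 3 * q * Wz d m A p.2 ∧
    (d + 1) * vv d q t p ≤ -(d - 3 * p.2)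

variable {ι : Type} {d : ℕ} {m : ι → ℕ} {A : Finset ι}

theorem sum_max_le (A : Finset ι) (f : ι → ℤ) (X : ℤ) :
    ∑ i ∈ A, max (f i) 0 ≤ X ↔ ∀ T : Finset ι, T ⊆ A → ∑ i ∈ T, f i ≤ X := by
  classical
  constructor
  · intro h T hT
    refine le_trans ?_ h
    refine le_trans (sum_le_sum fun i _ => le_max_left (f i) 0) ?_
    exact sum_le_sum_of_subset_of_nonneg hT fun i _ _ => le_max_right _ _
  · intro h
    have h1 := h (A.filter fun i => 0 ≤ f i) (filter_subset _ _)
    refine le_trans (le_of_eq ?_) h1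
    rw [sum_filter]
    refine sum_congr rfl fun i _ => ?_
    split_ifs with h2
    · exact max_eq_left h2
    · exact max_eq_right (by omega)

theorem Rg_poly {q t : ℤ} (hq : 0 < q) : IsPoly (Rg d q t m A) := by
  classical
  have h1 : IsPoly fun p => (0 ≤ 0 * p.1 + 1 * p.2) ∧ (-(d : ℤ) ≤ 0 * p.1 + (-3) * p.2) :=
    (IsPoly.half 0 1 0).and (IsPoly.half 0 (-3) (-(d : ℤ)))
  have h2 : IsPoly fun p => ∀ T : {T : Finset ι // T ⊆ A},
      (q * t - 1) * d - 9 * q * d + 3 * q * ∑ i ∈ T.1, (m i : ℤ) ≤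
        3 * q * p.1 + (-3 - 27 * q + 3 * q * (T.1.card : ℤ)) * p.2 :=
    IsPoly_all fun T => IsPoly.half _ _ _
  have h3 : IsPoly fun p => (d : ℤ) - (d + 1) * ((q * t - 1) * d) ≤
      (-((d + 1) * (3 * q))) * p.1 + (3 * (d + 1) + 3) * p.2 := IsPoly.half _ _ _
  refine ((h1.and h2).and h3).congr fun p => ?_
  have e2 : 0 ≤ vv d q t p + 3 * q * Wz d m A p.2 ↔ ∀ T : {T : Finset ι // T ⊆ A},
      (q * t - 1) * d - 9 * q * d + 3 * q * ∑ i ∈ T.1, (m i : ℤ) ≤
        3 * q * p.1 + (-3 - 27 * q + 3 * q * (T.1.card : ℤ)) * p.2 := by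
    have e : ∀ T : Finset ι, 3 * q * ∑ i ∈ T, ((m i : ℤ) - p.2) =
        3 * q * ∑ i ∈ T, (m i : ℤ) - 3 * q * (T.card : ℤ) * p.2 := by
      intro T
      rw [sum_sub_distrib, sum_const, nsmul_eq_mul]
      ring
    have h4 := sum_max_le A (fun i => 3 * q * ((m i : ℤ) - p.2))
      (vv d q t p + 3 * q * (3 * (d : ℤ) - 9 * p.2))
    have e3 : ∑ i ∈ A, max (3 * q * ((m i : ℤ) - p.2)) 0 =
        3 * q * ∑ i ∈ A, max ((m i : ℤ) - p.2) 0 := by
      rw [mul_sum]
      refine sum_congr rfl fun i _ => ?_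
      rw [mul_max_of_nonneg _ _ (by linarith : (0 : ℤ) ≤ 3 * q), mul_zero]
    rw [e3] at h4
    unfold Wz
    constructor
    · intro h5 T
      have h6 := h4.1 (by linarith) T.1 T.2
      rw [← mul_sum, e] at h6
      unfold vv at h6
      linarith
    · intro h5
      have h6 := h4.2 fun T hT => by
        have h7 := h5 ⟨T, hT⟩
        rw [← mul_sum, e]
        unfold vv
        simp only at h7
        linarith
      linarith
  unfold Rg
  rw [e2]
  unfold vv
  constructor
  · rintro ⟨⟨g1, g2⟩, g3, g4⟩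
    exact ⟨⟨⟨by linarith, by linarith⟩, g3⟩, by linarith⟩
  · rintro ⟨⟨⟨g1, g2⟩, g3⟩, g4⟩
    exact ⟨⟨by linarith, by linarith⟩, g3, by linarith⟩

theorem Rg0_poly {q t : ℤ} (hq : 0 < q) : IsPoly fun p => Rg d q t m A p ∧ 3 * p.2 < d := by
  refine ((Rg_poly (d := d) (m := m) (A := A) (t := t) hq).and
    (IsPoly.half 0 (-3) (-(d : ℤ) + 1))).congr fun p => ?_
  constructor
  · rintro ⟨h1, h2⟩
    exact ⟨h1, by linarith⟩
  · rintro ⟨h1, h2⟩
    exact ⟨h1, by linarith⟩

theorem Wz_apex (hA : ∀ i ∈ A, 3 * m i ≤ d) {y : ℤ} (hy : 3 * y = d) : Wz d m A y = 0 := by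
  unfold Wz
  rw [sum_eq_zero]
  · linarith
  · intro i hi
    have := hA i hi
    exact max_eq_right (by omega)

/-- in the rows below the apex -/
theorem Rg_iff {q t : ℤ} {p : ℤ × ℤ} (h3 : 3 * p.2 < d) (h0 : 0 ≤ p.2) :
    Rg d q t m A p ↔ 0 ≤ vv d q t p + 3 * q * Wz d m A p.2 ∧ vv d q t p < 0 := by
  unfold Rg
  have hd : (0 : ℤ) ≤ d := Int.natCast_nonneg d
  constructor
  · rintro ⟨-, h1, h2⟩
    refine ⟨h1, ?_⟩
    by_contra hc
    push Not at hc
    have : 0 ≤ ((d : ℤ) + 1) * vv d q t p := by positivity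
    linarith
  · rintro ⟨h1, h2⟩
    refine ⟨⟨h0, h3.le⟩, h1, ?_⟩
    have h4 : ((d : ℤ) + 1) * vv d q t p ≤ (d + 1) * (-1) :=
      mul_le_mul_of_nonneg_left (by omega) (by linarith)
    linarith

/-- the apex -/
theorem Rg_iff_apex {q t : ℤ} (hq : 0 < q) (hA : ∀ i ∈ A, 3 * m i ≤ d) {p : ℤ × ℤ}
    (h3 : 3 * p.2 = d) : Rg d q t m A p ↔ p.1 = t * p.2 := by
  unfold Rg
  have hd : (0 : ℤ) ≤ d := Int.natCast_nonneg d
  rw [Wz_apex hA h3, mul_zero, add_zero]
  have e : vv d q t p = 3 * q * (p.1 - t * p.2) := by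
    unfold vv
    rw [← h3]
    ring
  constructor
  · rintro ⟨-, h1, h2⟩
    have h4 : vv d q t p ≤ 0 := by
      by_contra hc
      push Not at hc
      have : 0 < ((d : ℤ) + 1) * vv d q t p := by positivity
      linarith
    have h5 : 3 * q * (p.1 - t * p.2) = 0 := by rw [← e]; omega
    rcases mul_eq_zero.1 h5 with h6 | h6
    · omega
    · linarith
  · intro h1
    have e2 : vv d q t p = 0 := by rw [e, h1]; ring
    rw [e2]
    refine ⟨⟨by omega, h3.le⟩, le_rfl, ?_⟩
    rw [mul_zero]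
    linarith

/-- **the reduction to the polygons** -/
theorem exists_region [Fintype ι] [DecidableEq ι] (d q : ℕ) (hq : 0 < q) : ∃ t : ℤ,
    ∀ (m : ι → ℕ) (A : Finset ι), (∀ i ∈ A, 3 * m i ≤ d) →
      (Emp (fun i => if i ∈ A then 0 else m i) {p | Rg d q t m A p} → Emp m (TZ d)) ∧
      (0 ≤ Wz d m A 0 →
        Sur (fun i => if i ∈ A then 0 else m i) {p | Rg d q t m A p ∧ 3 * p.2 < d} →
        Sur m (TZ d)) := by
  have hqR : (0 : ℝ) < q := by exact_mod_cast hq
  obtain ⟨t, τ, h0, h1, hirr, hfl⟩ := exists_pert d ((1 : ℝ) / q)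
  have hz : ∀ y : ℤ, ∀ x : ℝ, 3 * q * (x - ((t - (1 : ℝ) / q) * (d / 3) + 1 / q * y)) =
      3 * q * x - (q * t - 1) * d - 3 * y := by
    intro y x
    field_simp
    ring
  refine ⟨t, fun m A hA => ⟨fun h => ?_, fun hW h => ?_⟩⟩
  · refine Emp_plane (t := t) h0 h1 hirr (Emp_absorb_all m A _ (h.mono ?_))
    rintro ⟨x, y⟩ ⟨g1, g2, g3, g4⟩
    simp only at g1 g2 g3 g4
    have hy3 : 3 * y ≤ d := by omega
    rcases hy3.lt_or_eq with h3 | h3
    · show Rg d q t m A (x, y)
      rw [Rg_iff h3 g1]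
      have e := hfl y g1 h3
      have e4 : L1a d 0 y - ∑ i ∈ A, max ((m i : ℤ) - y) 0 = Wz d m A y := by
        unfold L1a Wz L1
        rw [max_eq_right (show ((0 : ℕ) : ℤ) - y ≤ 0 by push_cast; omega), if_neg (by omega)]
        ring
      rw [e, e4] at g3
      rw [e] at g4
      constructor
      · have h5 : ⌈(t - (1 : ℝ) / q) * (d / 3) + 1 / q * y⌉ ≤ x + Wz d m A y := by omega
        rw [Int.ceil_le] at h5
        have h6 : 0 ≤ 3 * q * (((x + Wz d m A y : ℤ) : ℝ) -
            ((t - (1 : ℝ) / q) * (d / 3) + 1 / q * y)) :=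
          mul_nonneg (by positivity) (by linarith)
        rw [hz] at h6
        have h7 : (0 : ℤ) ≤ 3 * q * (x + Wz d m A y) - (q * t - 1) * d - 3 * y := by
          exact_mod_cast h6
        unfold vv
        simp only
        linarith
      · have h5 : x < ⌈(t - (1 : ℝ) / q) * (d / 3) + 1 / q * y⌉ := by omega
        rw [Int.lt_ceil] at h5
        have h6 : 3 * q * ((x : ℝ) - ((t - (1 : ℝ) / q) * (d / 3) + 1 / q * y)) < 0 :=
          mul_neg_of_pos_of_neg (by positivity) (by linarith)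
        rw [hz] at h6
        have h7 : 3 * q * x - (q * t - 1) * d - 3 * y < (0 : ℤ) := by
          exact_mod_cast h6
        unfold vv
        simp only
        linarith
    · show Rg d q t m A (x, y)
      rw [Rg_iff_apex (by exact_mod_cast hq) hA h3]
      have e4 : L1a d 0 y - ∑ i ∈ A, max ((m i : ℤ) - y) 0 = 1 := by
        have h5 := Wz_apex hA h3
        unfold Wz at h5
        unfold L1a L1
        rw [max_eq_right (show ((0 : ℕ) : ℤ) - y ≤ 0 by push_cast; omega), if_pos h3]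
        linarith
      have e5 : (2 - τ) * d + (t - 3 * (2 - τ)) * (y : ℝ) = ((t * y : ℤ) : ℝ) := by
        have h6 : (d : ℝ) = 3 * y := by exact_mod_cast h3.symm
        rw [h6]
        push_cast
        ring
      rw [e5, Int.floor_intCast, e4] at g3
      rw [e5, Int.floor_intCast] at g4
      simp only
      omega
  · refine Sur_plane (t := t) h0 h1 hirr (Sur_absorb m A _ (fun i hi => ?_)
      (fun y hy hyH => ?_) (h.mono ?_))
    · have := hA i hi
      omega
    · have h2 := Wz_nonneg hA hW hy (by omega)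
      unfold Wz at h2
      unfold L1
      rw [max_eq_right (show ((0 : ℕ) : ℤ) - y ≤ 0 by push_cast; omega)]
      linarith
    · rintro ⟨x, y⟩ ⟨g, g3⟩
      have g1 : 0 ≤ y := g.1.1
      simp only at g3
      rw [Rg_iff g3 g1] at g
      obtain ⟨g4, g5⟩ := g
      unfold vv at g4 g5
      simp only at g4 g5
      have e := hfl y g1 g3
      refine ⟨g1, by simp only; omega, ?_, ?_⟩
      · simp only
        rw [e]
        have h5 : ⌈(t - (1 : ℝ) / q) * (d / 3) + 1 / q * y⌉ ≤ x + Wz d m A y := by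
          rw [Int.ceil_le]
          have h6 : (0 : ℝ) ≤ 3 * q * (((x + Wz d m A y : ℤ) : ℝ) -
              ((t - (1 : ℝ) / q) * (d / 3) + 1 / q * y)) := by
            rw [hz]
            have h7 : (0 : ℤ) ≤ 3 * q * (x + Wz d m A y) - (q * t - 1) * d - 3 * y := by linarith
            exact_mod_cast h7
          have h8 := nonneg_of_mul_nonneg_right h6 (by positivity)
          linarith
        have h4 : L1 d 0 y - ∑ i ∈ A, max ((m i : ℤ) - y) 0 = Wz d m A y := by
          unfold Wz L1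
          rw [max_eq_right (show ((0 : ℕ) : ℤ) - y ≤ 0 by push_cast; omega)]
          ring
        rw [h4]
        omega
      · simp only
        rw [e]
        have h5 : x < ⌈(t - (1 : ℝ) / q) * (d / 3) + 1 / q * y⌉ := by
          rw [Int.lt_ceil]
          have h6 : 3 * q * ((x : ℝ) - ((t - (1 : ℝ) / q) * (d / 3) + 1 / q * y)) < 0 := by
            rw [hz]
            have h7 : 3 * q * x - (q * t - 1) * d - 3 * y < (0 : ℤ) := by linarith
            exact_mod_cast h7
          by_contra hc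
          push Not at hc
          have : 0 ≤ 3 * q * ((x : ℝ) - ((t - (1 : ℝ) / q) * (d / 3) + 1 / q * y)) :=
            mul_nonneg (by positivity) (by linarith)
          linarith
        omega

end Pool.Agent.H879.Room
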